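import Pool.Agent.Helper70.MM.Goals2

/-!
Packet MM-CBIG of project MM (helper70): large squares.
-/

open MeasureTheory Set Metric
open scoped ENNReal RealInnerProductSpace Topology
open Pool.Agent.Results.MP_91ee6f_gt

namespace Pool.Agent.Helper5.MM

/-- a segment cell of length one, parallel to a coordinate axis -/
def cell (i j : Fin 2) (v : ℝ) (k : ℕ) : Set (En 2) :=
  {x | x i = v ∧ (k : ℝ) ≤ x j ∧ x j ≤ k + 1}

lemma cell_meas (i j : Fin 2) (v : ℝ) (k : ℕ) : MeasurableSet (cell i j v k) := by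
  have h : ∀ m : Fin 2, Continuous fun x : En 2 => x m := fun m => by fun_prop
  have h1 : IsClosed (cell i j v k) := by
    have : cell i j v k = {x : En 2 | x i = v} ∩ ({x : En 2 | (k : ℝ) ≤ x j} ∩ {x : En 2 | x j ≤ k + 1}) := by
      ext x; simp [cell]
    rw [this]
    exact (isClosed_eq (h i) continuous_const).inter
      ((isClosed_le continuous_const (h j)).inter (isClosed_le (h j) continuous_const))
  exact h1.measurableSet

lemma dist_two (x y : En 2) : dist x y = Real.sqrt ((x 0 - y 0) ^ 2 + (x 1 - y 1) ^ 2) := by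
  rw [EuclideanSpace.dist_eq, Fin.sum_univ_two]
  simp [Real.dist_eq, sq_abs]

lemma dist_le_of (x y : En 2) (h : (x 0 - y 0) ^ 2 + (x 1 - y 1) ^ 2 ≤ 1) : dist x y ≤ 1 := by
  rw [dist_two]
  exact Real.sqrt_le_one.mpr h |>.trans le_rfl

lemma le_dist_of (x y : En 2) (a : ℝ) (h : a ^ 2 ≤ (x 0 - y 0) ^ 2 + (x 1 - y 1) ^ 2) :
    a ≤ dist x y := by
  rw [dist_two]
  exact Real.le_sqrt_of_sq_le h

lemma cell_diam (i j : Fin 2) (hij : i ≠ j) (v : ℝ) (k : ℕ) (x y : En 2)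
    (hx : x ∈ cell i j v k) (hy : y ∈ cell i j v k) : dist x y ≤ 1 := by
  obtain ⟨hx1, hx2, hx3⟩ := hx
  obtain ⟨hy1, hy2, hy3⟩ := hy
  apply dist_le_of
  have hj : (x j - y j) ^ 2 ≤ 1 := by
    rw [sq_le_one_iff_abs_le_one, abs_le]
    constructor <;> linarith
  have hi : (x i - y i) ^ 2 = 0 := by rw [hx1, hy1]; simp
  fin_cases i <;> fin_cases j <;> simp_all

/-- The boundary of the square `[0,ℓ]²`. -/
def bd (ℓ : ℝ) : Set (En 2) := {x | x ∈ cube 2 ℓ ∧ ¬ (0 < x 0 ∧ x 0 < ℓ ∧ 0 < x 1 ∧ x 1 < ℓ)}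

lemma bd_cases (ℓ : ℝ) (x : En 2) (hx : x ∈ bd ℓ) :
    (0 ≤ x 0 ∧ x 0 ≤ ℓ ∧ 0 ≤ x 1 ∧ x 1 ≤ ℓ) ∧ (x 0 = 0 ∨ x 0 = ℓ ∨ x 1 = 0 ∨ x 1 = ℓ) := by
  obtain ⟨h1, h2⟩ := hx
  have h0 := h1 0
  have h1' := h1 1
  refine ⟨⟨h0.1, h0.2, h1'.1, h1'.2⟩, ?_⟩
  by_contra hc
  push Not at hc
  obtain ⟨a, b, c, d⟩ := hc
  exact h2 ⟨lt_of_le_of_ne h0.1 (Ne.symm a), lt_of_le_of_ne h0.2 b,
    lt_of_le_of_ne h1'.1 (Ne.symm c), lt_of_le_of_ne h1'.2 d⟩

/-- The four families of cells. -/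
def cells (ℓ : ℝ) (M : ℕ) (m : Fin (4 * M)) : Set (En 2) :=
  let p := finProdFinEquiv.symm m
  match p.1 with
  | 0 => cell 0 1 0 p.2
  | 1 => cell 0 1 ℓ p.2
  | 2 => cell 1 0 0 p.2
  | 3 => cell 1 0 ℓ p.2

lemma cells_of (ℓ : ℝ) (M : ℕ) (a : Fin 4) (k : Fin M) :
    cells ℓ M (finProdFinEquiv (a, k)) = (match a with
      | 0 => cell 0 1 0 k
      | 1 => cell 0 1 ℓ k
      | 2 => cell 1 0 0 k
      | 3 => cell 1 0 ℓ k) := by
  unfold cells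
  rw [Equiv.symm_apply_apply]

lemma cells_meas (ℓ : ℝ) (M : ℕ) (m : Fin (4 * M)) : MeasurableSet (cells ℓ M m) := by
  obtain ⟨⟨a, k⟩, rfl⟩ := finProdFinEquiv.surjective m
  rw [cells_of]
  fin_cases a <;> exact cell_meas _ _ _ _

lemma cells_diam (ℓ : ℝ) (M : ℕ) (m : Fin (4 * M)) (x y : En 2)
    (hx : x ∈ cells ℓ M m) (hy : y ∈ cells ℓ M m) : dist x y ≤ 1 := by
  obtain ⟨⟨a, k⟩, rfl⟩ := finProdFinEquiv.surjective m
  rw [cells_of] at hx hy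
  fin_cases a <;> exact cell_diam _ _ (by decide) _ _ _ _ hx hy

lemma bd_subset (ℓ : ℝ) :
    bd ℓ ⊆ ⋃ m, cells ℓ (⌊ℓ⌋₊ + 1) m := by
  intro x hx
  obtain ⟨⟨h0, h1, h2, h3⟩, hc⟩ := bd_cases ℓ x hx
  have key : ∀ t : ℝ, 0 ≤ t → t ≤ ℓ → ∃ k : Fin (⌊ℓ⌋₊ + 1), ((k : ℕ) : ℝ) ≤ t ∧ t ≤ (k : ℕ) + 1 := by
    intro t ht htl
    refine ⟨⟨⌊t⌋₊, Nat.lt_succ_of_le (Nat.floor_mono htl)⟩, Nat.floor_le ht, ?_⟩
    exact (Nat.lt_floor_add_one t).le
  rw [mem_iUnion]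
  rcases hc with hc | hc | hc | hc
  · obtain ⟨k, hk⟩ := key (x 1) h2 h3
    exact ⟨finProdFinEquiv (0, k), by rw [cells_of]; exact ⟨hc, hk⟩⟩
  · obtain ⟨k, hk⟩ := key (x 1) h2 h3
    exact ⟨finProdFinEquiv (1, k), by rw [cells_of]; exact ⟨hc, hk⟩⟩
  · obtain ⟨k, hk⟩ := key (x 0) h0 h1
    exact ⟨finProdFinEquiv (2, k), by rw [cells_of]; exact ⟨hc, hk⟩⟩
  · obtain ⟨k, hk⟩ := key (x 0) h0 h1
    exact ⟨finProdFinEquiv (3, k), by rw [cells_of]; exact ⟨hc, hk⟩⟩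

lemma num (ℓ : ℝ) (hℓ : 10 ≤ ℓ) : Real.exp (-(ℓ / 2)) < Real.exp (-1) / (4 * (ℓ + 1)) := by
  rw [lt_div_iff₀ (by linarith)]
  have h1 : Real.exp (-1) = Real.exp (-(ℓ / 2)) * Real.exp (ℓ / 2 - 1) := by
    rw [← Real.exp_add]; congr 1; ring
  rw [h1]
  apply mul_lt_mul_of_pos_left _ (Real.exp_pos _)
  have h2 : Real.exp (ℓ / 2 - 1) = Real.exp 1 ^ 4 * Real.exp (ℓ / 2 - 5) := by
    rw [← Real.exp_nat_mul, ← Real.exp_add]; congr 1; push_cast; ring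
  have h3 : ℓ / 2 - 5 + 1 ≤ Real.exp (ℓ / 2 - 5) := Real.add_one_le_exp _
  have h4 : (54 : ℝ) ≤ Real.exp 1 ^ 4 := by
    have := Real.exp_one_gt_d9
    calc (54 : ℝ) ≤ (2.7182818283 : ℝ) ^ 4 := by norm_num
      _ ≤ Real.exp 1 ^ 4 := by gcongr
  rw [h2]
  have h5 : (54 : ℝ) * (ℓ / 2 - 5 + 1) ≤ Real.exp 1 ^ 4 * Real.exp (ℓ / 2 - 5) := by
    apply mul_le_mul h4 h3 (by linarith) (by positivity)
  linarith

end Pool.Agent.Helper5.MM

namespace Pool.Agent.Helper70.MM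

open Pool.Agent.Helper5.MM

theorem cbig_h5 : HAUS → DENS → CSKEL → CBIG := by
  intro hHaus hDens hSkel ℓ hℓ w hw hwc c hc hcs A hA hsub
  have hℓ0 : 0 < ℓ := by linarith
  set O : Set (En 2) := {x | 0 < x 0 ∧ x 0 < ℓ ∧ 0 < x 1 ∧ x 1 < ℓ} with hO
  -- the open square is null
  have hA' : SigmaFiniteLength (A ∩ O) := by
    obtain ⟨T, hT, hT'⟩ := hA
    exact ⟨T, inter_subset_left.trans hT, hT'⟩
  have hnull : w (A ∩ O) = 0 := by
    apply hHaus 2 w inferInstance (A ∩ O) hA'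
    intro p hp hps
    refine (hSkel 2 ℓ hℓ0 w hw hwc c hc hcs p hps ?_).1
    obtain ⟨-, h1, h2, h3, h4⟩ := hp
    have : (Finset.univ.filter fun i : Fin 2 => 0 < p i ∧ p i < ℓ) = Finset.univ := by
      rw [Finset.filter_eq_self]
      intro i _
      fin_cases i
      · exact ⟨h1, h2⟩
      · exact ⟨h3, h4⟩
    rw [this]
    simp
  have hOnull : w O = 0 := by
    have h1 : O ⊆ (A ∩ O) ∪ w.supportᶜ := by
      intro x hx
      by_cases h : x ∈ w.support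
      · exact Or.inl ⟨hsub h, hx⟩
      · exact Or.inr h
    refine measure_mono_null h1 (measure_union_null hnull ?_)
    exact Measure.measure_compl_support
  -- the boundary
  have hX : w (bd ℓ)ᶜ = 0 := by
    have h1 : (bd ℓ)ᶜ ⊆ (cube 2 ℓ)ᶜ ∪ O := by
      intro x hx
      by_cases h : x ∈ cube 2 ℓ
      · right
        by_contra h2
        exact hx ⟨h, h2⟩
      · exact Or.inl h
    exact measure_mono_null h1 (measure_union_null hwc hOnull)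
  have hXc : ∀ x ∈ bd ℓ, c ≤ potential w x := fun x hx => hc x hx.1
  have hD := (hDens 2 (4 * (⌊ℓ⌋₊ + 1)) (bd ℓ) w hw hX c hXc hcs 1 (cells ℓ (⌊ℓ⌋₊ + 1))
    (bd_subset ℓ) (cells_meas ℓ _) (fun m x hx y hy => cells_diam ℓ _ m x y hx hy)).1
  have hN : ((4 * (⌊ℓ⌋₊ + 1) : ℕ) : ℝ) ≤ 4 * (ℓ + 1) := by
    push_cast
    have := Nat.floor_le hℓ0.le
    linarith
  have hD2 : Real.exp (-1) / (4 * (ℓ + 1)) ≤ c := by
    refine le_trans ?_ hD
    apply div_le_div_of_nonneg_left (Real.exp_pos _).le _ hN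
    positivity
  -- the centre
  set o : En 2 := WithLp.toLp 2 (fun _ => ℓ / 2) with ho
  have ho0 : o 0 = ℓ / 2 := rfl
  have ho1 : o 1 = ℓ / 2 := rfl
  have hoc : o ∈ cube 2 ℓ := by
    intro i
    have : o i = ℓ / 2 := rfl
    rw [this]
    constructor <;> linarith
  have hup : potential w o ≤ Real.exp (-(ℓ / 2)) := by
    unfold potential
    have hae : ∀ᵐ y ∂w, Real.exp (-dist o y) ≤ Real.exp (-(ℓ / 2)) := by
      have : ∀ᵐ y ∂w, y ∈ bd ℓ := by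
        rw [ae_iff]
        exact hX
      filter_upwards [this] with y hy
      apply Real.exp_le_exp.mpr
      apply neg_le_neg
      apply le_dist_of
      rw [ho0]
      try rw [ho1]
      obtain ⟨-, h | h | h | h⟩ := bd_cases ℓ y hy
      · rw [h]; nlinarith [sq_nonneg (ℓ / 2 - y 1)]
      · rw [h]; nlinarith [sq_nonneg (ℓ / 2 - y 1)]
      · rw [h]; nlinarith [sq_nonneg (ℓ / 2 - y 0)]
      · rw [h]; nlinarith [sq_nonneg (ℓ / 2 - y 0)]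
    have h2 : ∫ y, Real.exp (-dist o y) ∂w ≤ ∫ _, Real.exp (-(ℓ / 2)) ∂w := by
      apply integral_mono_of_nonneg
      · exact Filter.Eventually.of_forall fun y => (Real.exp_pos _).le
      · exact integrable_const _
      · exact hae
    simpa using h2
  have h3 := hc o hoc
  have h4 := num ℓ hℓ
  linarith

end Pool.Agent.Helper70.MM
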